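import Pool.Agent.Helper97.Tate.Goals

/-!
# Project FewPoints, packet TATE-VAB: more on multiplicities.
-/

set_option autoImplicit false

namespace Pool.Agent.Helper13.Tate.VAB

open Pool.Agent.Helper97.Tate MvPolynomial

variable {K : Type} [Field K]

lemma tau_C (P : Fin 3 → K) (a : K) : tau P (C a) = C a := by
  have h := (tau P).commutes a
  rwa [algebraMap_eq] at h

lemma tau_X (P : Fin 3 → K) (i : Fin 3) : tau P (X i) = X i + C (P i) := by
  unfold tau
  rw [aeval_X]

lemma tau_neg_tau (P : Fin 3 → K) (z : MvPolynomial (Fin 3) K) : tau (-P) (tau P z) = z := by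
  have h : (tau (-P)).comp (tau P) = AlgHom.id K _ := by
    apply MvPolynomial.algHom_ext
    intro i
    rw [AlgHom.comp_apply, tau_X, map_add, tau_X, tau_C, AlgHom.id_apply, Pi.neg_apply, map_neg]
    ring
  exact DFunLike.congr_fun h z

lemma degree_eq (e : Fin 3 →₀ ℕ) : e.degree = ∑ i, e i := by
  rw [Finsupp.degree]
  exact Finset.sum_subset (Finset.subset_univ _) fun i _ hi => Finsupp.notMem_support_iff.1 hi

lemma tau_deg (P : Fin 3 → K) (z : MvPolynomial (Fin 3) K) :
    (tau P z).totalDegree ≤ z.totalDegree := by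
  have h : tau P z = ∑ d ∈ z.support, C (z.coeff d) * ∏ i, (X i + C (P i)) ^ d i := by
    unfold tau
    rw [aeval_def, eval₂_eq', algebraMap_eq]
  rw [h]
  refine totalDegree_finsetSum_le fun d hd => ?_
  refine (totalDegree_mul _ _).trans ?_
  rw [totalDegree_C, zero_add]
  refine (totalDegree_finsetProd _ _).trans ?_
  have h1 : ∀ i : Fin 3, ((X i + C (P i) : MvPolynomial (Fin 3) K) ^ d i).totalDegree ≤ d i := by
    intro i
    refine (totalDegree_pow _ _).trans ?_
    have h2 : (X i + C (P i) : MvPolynomial (Fin 3) K).totalDegree ≤ 1 := by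
      refine (totalDegree_add _ _).trans ?_
      rw [totalDegree_X, totalDegree_C]
      simp
    calc d i * (X i + C (P i) : MvPolynomial (Fin 3) K).totalDegree ≤ d i * 1 :=
          Nat.mul_le_mul_left _ h2
      _ = d i := mul_one _
  refine (Finset.sum_le_sum fun i _ => h1 i).trans ?_
  have h3 := le_totalDegree hd
  rw [Finsupp.sum_fintype _ _ (by simp)] at h3
  exact h3

lemma part1 (P : Fin 3 → K) (d a : ℕ) (z : MvPolynomial (Fin 3) K) (hz : z.IsHomogeneous d)
    (hv : z ∈ Van P a) (hda : d < a) : z = 0 := by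
  have h1 : tau P z = 0 := by
    ext e
    rw [coeff_zero]
    by_cases he : e.degree < a
    · exact hv e he
    · apply coeff_eq_zero_of_totalDegree_lt
      have h2 := tau_deg P z
      have h3 := hz.totalDegree_le
      have h4 : e.degree = ∑ i ∈ e.support, e i := rfl
      omega
  rw [← tau_neg_tau P z, h1, map_zero]

lemma coeff_zero_tau (P : Fin 3 → K) (z : MvPolynomial (Fin 3) K) :
    coeff 0 (tau P z) = eval P z := by
  have h : (constantCoeff : MvPolynomial (Fin 3) K →+* K).comp (tau P : MvPolynomial (Fin 3) K →+* _)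
      = (eval P) := by
    apply MvPolynomial.ringHom_ext
    · intro a
      simp only [RingHom.comp_apply, RingHom.coe_coe, tau_C, constantCoeff_C, eval_C]
    · intro i
      simp only [RingHom.comp_apply, RingHom.coe_coe, tau_X, map_add, constantCoeff_C,
        constantCoeff_X, zero_add, eval_X]
  exact DFunLike.congr_fun h z

lemma part2 (P : Fin 3 → K) (z : MvPolynomial (Fin 3) K) : z ∈ Van P 1 ↔ eval P z = 0 := by
  rw [← coeff_zero_tau]
  constructor
  · intro h
    exact h 0 (by simp)
  · intro h e he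
    have h1 : e.degree = 0 := by omega
    have h2 : e = 0 := (Finsupp.degree_eq_zero_iff e).1 h1
    rw [h2, h]

lemma pderiv_tau (P : Fin 3 → K) (i : Fin 3) (z : MvPolynomial (Fin 3) K) :
    pderiv i (tau P z) = tau P (pderiv i z) := by
  induction z using MvPolynomial.induction_on with
  | C a => rw [tau_C, pderiv_C, map_zero]
  | add p q hp hq => rw [map_add, map_add, map_add, map_add, hp, hq]
  | mul_X p n hp =>
    rw [map_mul, tau_X, pderiv_mul, hp, map_add, pderiv_C, pderiv_mul, map_add, map_mul, map_mul,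
      tau_X, pderiv_X, add_zero]
    by_cases h : n = i
    · subst h
      rw [Pi.single_eq_same, map_one]
    · rw [Pi.single_eq_of_ne h, map_zero]

lemma part3 (P : Fin 3 → K) (z : MvPolynomial (Fin 3) K) (i : Fin 3)
    (h : eval P (pderiv i z) ≠ 0) : z ∉ Van P 2 := by
  intro hz
  apply h
  rw [← coeff_zero_tau, ← pderiv_tau, coeff_pderiv, zero_add]
  rw [hz (Finsupp.single i 1) (by rw [Finsupp.degree_single]; norm_num), zero_mul]

lemma part4 (P : Fin 3 → K) (A : Type) [CommRing A] [Algebra K A]
    (χ : MvPolynomial (Fin 3) K →ₐ[K] A) (I : Ideal A) (m : ℕ) (z : MvPolynomial (Fin 3) K)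
    (hχ : ∀ r, χ (X r) - algebraMap K A (P r) ∈ I) (hz : z ∈ Van P m) : χ z ∈ I ^ m := by
  have h1 : χ z = (χ.comp (tau (-P))) (tau P z) := by
    rw [AlgHom.comp_apply, tau_neg_tau]
  have h2 : ∀ r, (χ.comp (tau (-P))) (X r) ∈ I := by
    intro r
    rw [AlgHom.comp_apply, tau_X, map_add, Pi.neg_apply, map_neg, map_neg, ← sub_eq_add_neg]
    have h3 : χ (C (P r)) = algebraMap K A (P r) := by
      rw [← algebraMap_eq]
      exact χ.commutes _
    rw [h3]
    exact hχ r
  rw [h1, MvPolynomial.aeval_unique (χ.comp (tau (-P))), aeval_def, eval₂_eq']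
  refine Ideal.sum_mem _ fun d hd => Ideal.mul_mem_left _ _ ?_
  have h4 : m ≤ d.degree := by
    by_contra hlt
    exact (mem_support_iff.1 hd) (hz d (not_le.1 hlt))
  refine Ideal.pow_le_pow_right h4 ?_
  rw [degree_eq, ← Finset.prod_pow_eq_pow_sum]
  exact Ideal.prod_mem_prod fun i _ => Ideal.pow_mem_pow (h2 i) _

/-- **Packet TATE-VAB.** -/
theorem t : S_VAB := fun _ _ P =>
  ⟨part1 P, part2 P, part3 P, fun A _ _ χ I m z hχ hz => part4 P A χ I m z hχ hz⟩

end Pool.Agent.Helper13.Tate.VAB
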